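import Pool.Agent.Q83.MV.Step

/-!
# Closures of families of stable sets of rational points (helper83)
-/

set_option autoImplicit false
set_option linter.unusedSectionVars false

namespace Pool.Agent.Q83.MV

open MvPolynomial Filter Topology Set

variable {K : Type*} [Field K] {ι : Type*} [Fintype ι] {L : ι → Type*}
  [∀ v, NontriviallyNormedField (L v)] (σ : ∀ v, K →+* L v)
  {α : Type*} [Fintype α]

variable {F : MvPolynomial α K} {B J : Finset α} {T T' : ∀ v, α → L v}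

/-- the relation given by a family of sets of rational points -/
def Rel (𝒵 : Set (Set (α → K))) (z z' : ∀ v, α → L v) : Prop :=
  ∀ Z ∈ 𝒵, z ∈ closure (emb σ '' Z) → z' ∈ closure (emb σ '' Z)

lemma rel_trans (𝒵 : Set (Set (α → K))) (a b c : ∀ v, α → L v) (h : Rel σ 𝒵 a b)
    (h' : Rel σ 𝒵 b c) : Rel σ 𝒵 a c := fun Z hZ ha => h' Z hZ (h Z hZ ha)

lemma rel_inv (hσ : DenseRange fun (a : K) (v : ι) => σ v a) (hF : QuadOn B F)
    {𝒵 : Set (Set (α → K))} (h𝒵 : ∀ Z ∈ 𝒵, (∀ z ∈ Z, eval z F = 0) ∧ StableFor F B Z) :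
    Inv σ F B (Rel σ 𝒵) := fun _ _ _ hu hq Z hZ hz =>
  one_step σ hσ hF (h𝒵 Z hZ).1 (h𝒵 Z hZ).2 hz hu hq

lemma isClosed_locX : IsClosed (locX σ F) := by
  have e : locX σ F = ⋂ v, {z | eval (z v) (map (σ v) F) = 0} := by
    ext z; simp [locX]
  rw [e]
  exact isClosed_iInter fun v => isClosed_eq (continuous_eval_comp _ (continuous_apply v))
    continuous_const

lemma closure_subset_locX {Z : Set (α → K)} (hZ : ∀ z ∈ Z, eval z F = 0) :
    closure (emb σ '' Z) ⊆ locX σ F := by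
  refine closure_minimal ?_ (isClosed_locX σ)
  rintro _ ⟨z, hz, rfl⟩ v
  rw [eval_emb, hZ z hz, map_zero]

theorem open_concl {𝒵 : Set (Set (α → K))} (hT : LT σ F (Rel σ 𝒵) Finset.univ T)
    {Z : Set (α → K)} (hZ : Z ∈ 𝒵) (hZX : ∀ z ∈ Z, eval z F = 0) (hTZ : T ∈ closure (emb σ '' Z)) :
    closure (emb σ '' Z) ∈ 𝓝[locX σ F] T := by
  obtain ⟨W, hW, h⟩ := LT.final σ hT
  rw [mem_nhdsWithin_iff_eventually]
  filter_upwards [hW] with z hz hzX
  exact h T (mem_of_mem_nhds hW) z hz (closure_subset_locX σ hZX hTZ) hzX Z hZ hTZ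

theorem finite_concl {𝒵 : Set (Set (α → K))} {M : Set (∀ v, α → L v)} (hM : IsCompact M)
    (hMX : M ⊆ locX σ F) (hT : ∀ T ∈ M, LT σ F (Rel σ 𝒵) Finset.univ T) :
    {N | ∃ Z ∈ 𝒵, N = closure (emb σ '' Z) ∩ M}.Finite := by
  classical
  have h1 : ∀ T : ∀ v, α → L v, ∃ W : Set (∀ v, α → L v), W ∈ 𝓝 T ∧ (T ∈ M → ∀ z ∈ W, ∀ z' ∈ W,
      z ∈ locX σ F → z' ∈ locX σ F → Rel σ 𝒵 z z') := by
    intro T
    by_cases hTM : T ∈ M
    · obtain ⟨W, hW, h⟩ := LT.final σ (hT T hTM)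
      exact ⟨W, hW, fun _ => h⟩
    · exact ⟨Set.univ, univ_mem, fun h => absurd h hTM⟩
  choose W hW hW' using h1
  obtain ⟨t, ht, hcov⟩ := hM.elim_nhds_subcover W fun T _ => hW T
  refine ((t.powerset.finite_toSet).image fun s : Finset (∀ v, α → L v) =>
    ⋃ T ∈ s, (W T ∩ M)).subset ?_
  rintro _ ⟨Z, hZ, rfl⟩
  refine ⟨t.filter fun T => (closure (emb σ '' Z) ∩ M ∩ W T).Nonempty, ?_, ?_⟩
  · rw [Finset.mem_coe, Finset.mem_powerset]
    exact Finset.filter_subset _ _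
  · ext z
    simp only [Set.mem_iUnion, Finset.mem_filter]
    constructor
    · rintro ⟨T, ⟨hTt, y, ⟨hyC, hyM⟩, hyW⟩, hzW, hzM⟩
      exact ⟨hW' T (ht T hTt) y hyW z hzW (hMX hyM) (hMX hzM) Z hZ hyC, hzM⟩
    · rintro ⟨hzC, hzM⟩
      obtain ⟨T, hTt, hzT⟩ := Set.mem_iUnion₂.1 (hcov hzM)
      exact ⟨T, ⟨hTt, z, ⟨hzC, hzM⟩, hzT⟩, hzT, hzM⟩

end Pool.Agent.Q83.MV
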