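import Pool.Agent.Q83.MV.Zar

/-!
# Density near good rational points (helper83)
-/

set_option autoImplicit false
set_option linter.unusedSectionVars false

namespace Pool.Agent.Q83.MV

open MvPolynomial Filter Topology Set

section one

variable {K : Type*} [Field K] {L : Type*} [Field L] (σ : K →+* L) {α : Type*} [Fintype α]
  {F : MvPolynomial α K} {b : α → ℕ}

lemma eval_image (G : MvPolynomial α K) (T : α → K) :
    eval (fun a => σ (T a)) (map σ G) = σ (eval T G) := by
  rw [eval_map]
  have h := MvPolynomial.eval₂_comp_left σ (RingHom.id K) T G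
  rw [RingHom.comp_id] at h
  exact h.symm

lemma Nbr.map {k : ℕ} {T T' : α → K} (h : Nbr F b k T T') :
    Nbr (MvPolynomial.map σ F) b k (fun a => σ (T a)) (fun a => σ (T' a)) := by
  obtain ⟨h1, h2, h3, h4⟩ := h
  refine ⟨by rw [eval_image, h1, map_zero], by rw [eval_image, h2, map_zero],
    fun a ha => congrArg σ (h3 a ha), ?_⟩
  simp only [pderiv_map, eval_image, ← map_sub, ← map_mul, ← map_sum]
  exact (map_ne_zero σ).2 h4

lemma Good.map (k : ℕ) : ∀ {T : α → K}, Good F b k T →
    Good (MvPolynomial.map σ F) b k (fun a => σ (T a)) := by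
  induction k with
  | zero =>
    rintro T ⟨T', h⟩
    exact ⟨_, h.map σ⟩
  | succ k ih =>
    rintro T ⟨h1, T', h2, h3, a, a', ha, ha', hm⟩
    refine ⟨ih h1, _, h2.map σ, ih h3, a, a', ha, ha', ?_⟩
    simp only [pderiv_map, eval_image, ← map_mul]
    exact fun h => hm (σ.injective h)

lemma Good.smooth {k : ℕ} {T : α → K} (h : Good F b k T) : ∃ a, eval T (pderiv a F) ≠ 0 := by
  obtain ⟨T', h⟩ := Good.zero F b k T h
  by_contra hcon
  push Not at hcon
  exact h.2.2.2 (Finset.sum_eq_zero fun a _ => by rw [hcon a, mul_zero])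

end one

variable {K : Type*} [Field K] {α : Type*} [Fintype α] {F : MvPolynomial α K} {b : α → ℕ}

/-- stability of the set of all rational points -/
lemma stable_all (B : Finset α) : StableFor F B {z | eval z F = 0} := fun _ _ _ h _ _ => h

/-- closures of the set of the rational points at good tuples -/
theorem closure_good {ι : Type*} [Fintype ι] {L : ι → Type*} [∀ v, NontriviallyNormedField (L v)]
    [∀ v, CompleteSpace (L v)] (σ : ∀ v, K →+* L v)
    (hσ : DenseRange fun (a : K) (v : ι) => σ v a) [DecidableEq α] (r : ℕ) (hb : ∀ a, b a ≤ r)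
    (hF : ∀ k ≤ r, QuadOn (blk b k) F) {Z : Set (α → K)} (hZ : ∀ z ∈ Z, eval z F = 0)
    (hZs : ∀ k ≤ r, StableFor F (blk b k) Z) {T : ∀ v, α → L v}
    (hTZ : T ∈ closure (emb σ '' Z)) (hT : ∀ v, Good (map (σ v) F) b r (T v)) :
    closure (emb σ '' Z) ∈ 𝓝[locX σ F] T := by
  have h := LT_good σ (R := Rel σ {Z}) (b := b) r hF (rel_trans σ _)
    (fun k hk => rel_inv σ hσ (hF k hk) (by
      rintro Z' rfl
      exact ⟨hZ, hZs k hk⟩)) T hT
  have hu : fst b r = Finset.univ := by
    ext a
    simp [fst, hb a]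
  rw [hu] at h
  exact open_concl σ h rfl hZ hTZ

/-- **Zariski density near a good rational point** -/
theorem dense_good {L : Type*} [NontriviallyNormedField L] [CompleteSpace L] (σ : K →+* L)
    (hσ : DenseRange σ) (r : ℕ) (hb : ∀ a, b a ≤ r)
    (hF : ∀ k ≤ r, ∀ m ∈ F.support, ∑ a with b a = k, m a ≤ 2) (hirr : Irreducible F)
    {T : α → L} (hTc : T ∈ closure {S | ∃ z : α → K, eval z F = 0 ∧ S = fun a => σ (z a)})
    (hT : Good (map σ F) b r T) {U : Set (α → L)} (hU : U ∈ 𝓝 T)
    (g : MvPolynomial α K) (hg : ∀ z : α → K, eval z F = 0 → (fun a => σ (z a)) ∈ U →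
      eval z g = 0) : F ∣ g := by
  classical
  -- one place
  let σ' : ∀ _ : Unit, K →+* L := fun _ => σ
  have hσ' : DenseRange fun (a : K) (v : Unit) => σ' v a := by
    have hs : Function.Surjective fun (x : L) (_ : Unit) => x :=
      fun f => ⟨f (), funext fun _ => rfl⟩
    exact hs.denseRange.comp hσ (continuous_pi fun _ => continuous_id)
  have hTc' : (fun _ : Unit => T) ∈ closure (emb σ' '' {z | eval z F = 0}) := by
    have hc : Continuous fun (S : α → L) (_ : Unit) => S := continuous_pi fun _ => continuous_id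
    have h1 := image_closure_subset_closure_image hc ⟨T, hTc, rfl⟩
    refine closure_mono ?_ h1
    rintro _ ⟨_, ⟨z, hz, rfl⟩, rfl⟩
    exact ⟨z, hz, rfl⟩
  have h := closure_good (F := F) (b := b) σ' hσ' r hb (fun k hk m hm => hF k hk m hm)
    (Z := {z | eval z F = 0}) (fun z hz => hz) (fun k _ => stable_all _) (T := fun _ => T) hTc'
    (fun _ => hT)
  rw [mem_nhdsWithin_iff_eventually] at h
  have h2 : ∀ᶠ z in 𝓝 T, eval z (map σ F) = 0 →
      (fun _ : Unit => z) ∈ closure (emb σ' '' {z | eval z F = 0}) := by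
    have hc : Continuous fun (S : α → L) (_ : Unit) => S := continuous_pi fun _ => continuous_id
    filter_upwards [(hc.tendsto T).eventually h] with z hz hz0
    exact hz fun _ => hz0
  obtain ⟨V, hVU, hVo, hTV⟩ := mem_nhds_iff.1 hU
  obtain ⟨a, ha⟩ := Good.smooth hT
  refine dvd_of_near σ hirr (Good.eval_eq _ _ _ _ hT) ha ?_
  filter_upwards [h2, hVo.mem_nhds hTV] with z hz hzV hz0
  have h3 := hz hz0
  -- the polynomial vanishes on the rational points near `z`
  have hcl : IsClosed {S : Unit → α → L | eval (S ()) (map σ g) = 0} :=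
    isClosed_eq ((MvPolynomial.continuous_eval _).comp (continuous_apply ())) continuous_const
  have hop : IsOpen {S : Unit → α → L | S () ∈ V} := hVo.preimage (continuous_apply ())
  have h4 := hop.inter_closure ⟨hzV, h3⟩
  refine (closure_minimal (t := {S : Unit → α → L | eval (S ()) (map σ g) = 0}) ?_ hcl) h4
  rintro _ ⟨hV, y, hy, rfl⟩
  change eval (fun a => σ (y a)) (map σ g) = 0
  rw [eval_image, hg y hy (hVU hV), map_zero]

end Pool.Agent.Q83.MV
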