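import Pool.Agent.Q83.MV.Move

/-!
# Local transitivity of the moves (helper83)
-/

set_option autoImplicit false
set_option linter.unusedSectionVars false

namespace Pool.Agent.Q83.MV

open MvPolynomial Filter Topology Set

variable {K : Type*} [Field K] {ι : Type*} [Fintype ι] {L : ι → Type*}
  [∀ v, NontriviallyNormedField (L v)] (σ : ∀ v, K →+* L v)
  {α : Type*} [Fintype α]

/-- the relation `R` contains the second intersections with the lines in the direction of the block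
`B` -/
def Inv (F : MvPolynomial α K) (B : Finset α) (R : (∀ v, α → L v) → (∀ v, α → L v) → Prop) :
    Prop :=
  ∀ z u : ∀ v, α → L v, z ∈ locX σ F → (∀ v, ∀ j ∉ B, u v j = 0) →
    (∀ v, qq (map (σ v) F) (z v) (u v) ≠ 0) → R z (sec σ F u z)

/-- near `T` all points of the same fibre are related -/
def LT (F : MvPolynomial α K) (R : (∀ v, α → L v) → (∀ v, α → L v) → Prop) (J : Finset α)
    (T : ∀ v, α → L v) : Prop :=
  ∀ᶠ p in 𝓝 (T, T), p.1 ∈ locX σ F → p.2 ∈ locX σ F → (∀ v, ∀ j ∉ J, p.2 v j = p.1 v j) →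
    R p.1 p.2

variable {F : MvPolynomial α K} {B J : Finset α} {R : (∀ v, α → L v) → (∀ v, α → L v) → Prop}
  {T T' : ∀ v, α → L v}

lemma Inv.two (hC : Inv σ F B R) {z z' : ∀ v, α → L v} (hX : z ∈ locX σ F)
    (hX' : z' ∈ locX σ F) (hoff : ∀ v, ∀ j ∉ B, z' v j = z v j)
    (hd : ∀ v, dd (map (σ v) F) (z v) (z' v - z v) ≠ 0) : R z z' := by
  have h : ∀ v, qq (map (σ v) F) (z v) (z' v - z v) = - dd (map (σ v) F) (z v) (z' v - z v) := by
    intro v
    rw [qq, add_sub_cancel, hX v, hX' v]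
    ring
  have h2 : sec σ F (fun v => z' v - z v) z = z' := by
    funext v
    simp only [sec]
    rw [h, div_neg, div_self (hd v)]
    simp
  have := hC z (fun v => z' v - z v) hX (fun v j hj => by simp [hoff v j hj])
    (fun v => by rw [h]; exact neg_ne_zero.2 (hd v))
  rwa [h2] at this

lemma sec_mem (hF : QuadOn B F) {u z : ∀ v, α → L v} (hu : ∀ v, ∀ j ∉ B, u v j = 0)
    (hz : z ∈ locX σ F) (hq : ∀ v, qq (map (σ v) F) (z v) (u v) ≠ 0) :
    sec σ F u z ∈ locX σ F := by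
  intro v
  have e : sec σ F u z v = z v + (-(dd (map (σ v) F) (z v) (u v) /
      qq (map (σ v) F) (z v) (u v))) • u v := by
    rw [sec, neg_smul, sub_eq_add_neg]
  have h0 := hq v
  rw [e, line_eq (hF.map σ v) _ _ (hu v), hz v]
  field_simp
  ring

lemma sec_off {u z : ∀ v, α → L v} (hu : ∀ v, ∀ j ∉ B, u v j = 0) (v : ι) (j : α) (hj : j ∉ B) :
    sec σ F u z v j = z v j := by
  simp [sec, hu v j hj]

lemma sec_dd {u z : ∀ v, α → L v} (v : ι)
    (hq : qq (map (σ v) F) (z v) (u v) ≠ 0) (hd : dd (map (σ v) F) (z v) (u v) ≠ 0) :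
    dd (map (σ v) F) (z v) (sec σ F u z v - z v) ≠ 0 := by
  have e : sec σ F u z v - z v = (-(dd (map (σ v) F) (z v) (u v) /
      qq (map (σ v) F) (z v) (u v))) • u v := by
    rw [sec, neg_smul]; abel
  rw [e, dd_smul]
  exact mul_ne_zero (neg_ne_zero.2 (div_ne_zero hd hq)) hd

lemma sec_dd' (hF : QuadOn B F) {u z : ∀ v, α → L v} (hu : ∀ v, ∀ j ∉ B, u v j = 0)
    (hz : z ∈ locX σ F) (v : ι) (hq : ∀ v, qq (map (σ v) F) (z v) (u v) ≠ 0)
    (hd : dd (map (σ v) F) (z v) (u v) ≠ 0) :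
    dd (map (σ v) F) (sec σ F u z v) (z v - sec σ F u z v) ≠ 0 := by
  rw [dd_symm (hF.map σ v) (fun j hj => sec_off σ hu v j hj) (hz v) (sec_mem σ hF hu hz hq v)]
  exact sec_dd σ v (hq v) hd

lemma quad_coeff {R : Type*} [CommRing R] (a b d : R) :
    (Polynomial.C a + Polynomial.C b * Polynomial.X + Polynomial.C d * Polynomial.X ^ 2).coeff 1 = b
    ∧ (Polynomial.C a + Polynomial.C b * Polynomial.X +
      Polynomial.C d * Polynomial.X ^ 2).coeff 2 = d := by
  constructor <;> simp [Polynomial.coeff_X, Polynomial.coeff_C]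

lemma sec_qq (hF : QuadOn B F) {u z : ∀ v, α → L v} (hu : ∀ v, ∀ j ∉ B, u v j = 0) (v : ι) :
    qq (map (σ v) F) (sec σ F u z v) (u v) = qq (map (σ v) F) (z v) (u v) ∧
    dd (map (σ v) F) (sec σ F u z v) (u v) = dd (map (σ v) F) (z v) (u v) - 2 *
      ((dd (map (σ v) F) (z v) (u v) / qq (map (σ v) F) (z v) (u v)) *
        qq (map (σ v) F) (z v) (u v)) := by
  set c := -(dd (map (σ v) F) (z v) (u v) / qq (map (σ v) F) (z v) (u v)) with hc
  have e : sec σ F u z v = z v + c • u v := by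
    rw [sec, hc, neg_smul, sub_eq_add_neg]
  have hQ := hF.map σ v
  have h1 : lin (map (σ v) F) (z v + c • u v) (u v) =
      (lin (map (σ v) F) (z v) (u v)).comp (Polynomial.X + Polynomial.C c) := by
    unfold lin
    rw [aeval_def, aeval_def, ← Polynomial.coe_compRingHom_apply, hom_eval₂]
    congr 1
    · ext a : 1
      simp [Polynomial.algebraMap_eq]
    · funext j
      simp only [Polynomial.coe_compRingHom_apply, Polynomial.add_comp, Pi.add_apply,
        Pi.smul_apply, smul_eq_mul, map_add, map_mul,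
        Polynomial.mul_comp, Polynomial.C_comp, Polynomial.X_comp]
      ring
  have h2 : lin (map (σ v) F) (z v) (u v) = Polynomial.C (eval (z v) (map (σ v) F)) +
      Polynomial.C (dd (map (σ v) F) (z v) (u v)) * Polynomial.X +
      Polynomial.C (qq (map (σ v) F) (z v) (u v)) * Polynomial.X ^ 2 := by
    apply Polynomial.funext
    intro s
    rw [lin_eval, line_eq hQ _ _ (hu v)]
    simp
    ring
  have h3 : lin (map (σ v) F) (z v + c • u v) (u v) =
      Polynomial.C (eval (z v + c • u v) (map (σ v) F)) +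
      Polynomial.C (dd (map (σ v) F) (z v + c • u v) (u v)) * Polynomial.X +
      Polynomial.C (qq (map (σ v) F) (z v + c • u v) (u v)) * Polynomial.X ^ 2 := by
    apply Polynomial.funext
    intro s
    rw [lin_eval, line_eq hQ _ _ (hu v)]
    simp
    ring
  have h4 : (lin (map (σ v) F) (z v + c • u v) (u v)) =
      Polynomial.C (eval (z v) (map (σ v) F) + dd (map (σ v) F) (z v) (u v) * c +
        qq (map (σ v) F) (z v) (u v) * c ^ 2) +
      Polynomial.C (dd (map (σ v) F) (z v) (u v) + 2 * (qq (map (σ v) F) (z v) (u v) * c)) *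
        Polynomial.X +
      Polynomial.C (qq (map (σ v) F) (z v) (u v)) * Polynomial.X ^ 2 := by
    rw [h1, h2]
    apply Polynomial.funext
    intro s
    simp
    ring
  rw [e]
  have h5 := h3.symm.trans h4
  constructor
  · have h6 := congrArg (fun p => Polynomial.coeff p 2) h5
    simp only [(quad_coeff _ _ _).2] at h6
    exact h6
  · have h6 := congrArg (fun p => Polynomial.coeff p 1) h5
    simp only [(quad_coeff _ _ _).1] at h6
    rw [h6, hc]
    ring

/-- the second intersection is an involution -/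
lemma sec_sec (hF : QuadOn B F) {u z : ∀ v, α → L v} (hu : ∀ v, ∀ j ∉ B, u v j = 0)
    (hq : ∀ v, qq (map (σ v) F) (z v) (u v) ≠ 0) : sec σ F u (sec σ F u z) = z := by
  funext v
  obtain ⟨h1, h2⟩ := sec_qq σ (z := z) hF hu v
  have e : sec σ F u (sec σ F u z) v = sec σ F u z v -
      (dd (map (σ v) F) (sec σ F u z v) (u v) / qq (map (σ v) F) (sec σ F u z v) (u v)) • u v := rfl
  rw [e, h1, h2, div_mul_cancel₀ _ (hq v)]
  have e2 : sec σ F u z v = z v - (dd (map (σ v) F) (z v) (u v) /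
    qq (map (σ v) F) (z v) (u v)) • u v := rfl
  rw [e2, sub_sub, ← add_smul]
  have e3 : dd (map (σ v) F) (z v) (u v) / qq (map (σ v) F) (z v) (u v) +
      (dd (map (σ v) F) (z v) (u v) - 2 * dd (map (σ v) F) (z v) (u v)) /
        qq (map (σ v) F) (z v) (u v) = 0 := by
    field_simp
    ring
  rw [e3, zero_smul, sub_zero]

lemma sec_inv' (hC : Inv σ F B R) (hF : QuadOn B F) {u z : ∀ v, α → L v}
    (hu : ∀ v, ∀ j ∉ B, u v j = 0) (hz : z ∈ locX σ F)
    (hq : ∀ v, qq (map (σ v) F) (z v) (u v) ≠ 0) : R (sec σ F u z) z := by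
  have := hC (sec σ F u z) u (sec_mem σ hF hu hz hq) hu fun v => by
    rw [(sec_qq σ hF hu v).1]; exact hq v
  rwa [sec_sec σ hF hu hq] at this

lemma continuous_ddv (u : ∀ v, α → L v) (v : ι) :
    Continuous fun z : ∀ v, α → L v => dd (map (σ v) F) (z v) (u v) :=
  continuous_dd _ (continuous_apply v) continuous_const

lemma continuous_qqv (u : ∀ v, α → L v) (v : ι) :
    Continuous fun z : ∀ v, α → L v => qq (map (σ v) F) (z v) (u v) :=
  continuous_qq _ (continuous_apply v) continuous_const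

lemma sec_cont {u : ∀ v, α → L v} (hq : ∀ v, qq (map (σ v) F) (T v) (u v) ≠ 0) :
    ContinuousAt (sec σ F u) T := by
  refine continuousAt_pi.2 fun v => ?_
  have hs : ContinuousAt (fun z : ∀ v, α → L v =>
      dd (map (σ v) F) (z v) (u v) / qq (map (σ v) F) (z v) (u v)) T :=
    (continuous_ddv σ u v).continuousAt.div (continuous_qqv σ u v).continuousAt (hq v)
  exact (continuous_apply v).continuousAt.sub (hs.smul continuousAt_const)

lemma ev_qq {u : ∀ v, α → L v} (hq : ∀ v, qq (map (σ v) F) (T v) (u v) ≠ 0) :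
    ∀ᶠ z in 𝓝 T, ∀ v, qq (map (σ v) F) (z v) (u v) ≠ 0 :=
  eventually_all.2 fun v => (continuous_qqv σ u v).continuousAt.eventually_ne (hq v)

lemma ev_dd {u : ∀ v, α → L v} (hq : ∀ v, dd (map (σ v) F) (T v) (u v) ≠ 0) :
    ∀ᶠ z in 𝓝 T, ∀ v, dd (map (σ v) F) (z v) (u v) ≠ 0 :=
  eventually_all.2 fun v => (continuous_ddv σ u v).continuousAt.eventually_ne (hq v)

/-- **One block.** -/
theorem LT_base (htr : ∀ a b c, R a b → R b c → R a c) (hC : Inv σ F B R) (hF : QuadOn B F) (hT : T ∈ locX σ F) {u : ∀ v, α → L v}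
    (hu : ∀ v, ∀ j ∉ B, u v j = 0) (hd : ∀ v, dd (map (σ v) F) (T v) (u v) ≠ 0)
    (hq : ∀ v, qq (map (σ v) F) (T v) (u v) ≠ 0) : LT σ F R B T := by
  have hf1 : Tendsto (fun p : (∀ v, α → L v) × (∀ v, α → L v) => p.1) (𝓝 (T, T)) (𝓝 T) :=
    continuous_fst.tendsto (T, T)
  have hf2 : Tendsto (fun p : (∀ v, α → L v) × (∀ v, α → L v) => p.2) (𝓝 (T, T)) (𝓝 T) :=
    continuous_snd.tendsto (T, T)
  have hsec : Tendsto (fun p : (∀ v, α → L v) × (∀ v, α → L v) => (sec σ F u p.1, p.2))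
      (𝓝 (T, T)) (𝓝 (sec σ F u T, T)) := ((sec_cont σ hq).tendsto.comp hf1).prodMk_nhds hf2
  have hlast : ∀ᶠ p in 𝓝 (T, T), ∀ v,
      dd (map (σ v) F) (sec σ F u p.1 v) (p.2 v - sec σ F u p.1 v) ≠ 0 := by
    refine eventually_all.2 fun v => ?_
    have h1 : Continuous fun q : (∀ v, α → L v) × (∀ v, α → L v) =>
        dd (map (σ v) F) (q.1 v) (q.2 v - q.1 v) :=
      continuous_dd _ ((continuous_apply v).comp continuous_fst)
        (((continuous_apply v).comp continuous_snd).sub ((continuous_apply v).comp continuous_fst))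
    exact hsec.eventually (h1.continuousAt.eventually_ne (sec_dd' σ hF hu hT v hq (hd v)))
  filter_upwards [hlast, hf1.eventually (ev_qq σ hq)] with p h1 h2 hp1 hp2 hoff
  refine htr _ _ _ (hC _ _ hp1 hu h2) (hC.two σ (sec_mem σ hF hu hp1 h2) hp2
    (fun v j hj => ?_) h1)
  rw [sec_off σ hu v j hj, hoff v j hj]

lemma sec_diff (hT : T ∈ locX σ F) (hT' : T' ∈ locX σ F)
    (hd : ∀ v, dd (map (σ v) F) (T v) (T' v - T v) ≠ 0) :
    (∀ v, qq (map (σ v) F) (T v) (T' v - T v) ≠ 0) ∧ sec σ F (fun v => T' v - T v) T = T' := by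
  have h : ∀ v, qq (map (σ v) F) (T v) (T' v - T v) = - dd (map (σ v) F) (T v) (T' v - T v) := by
    intro v
    rw [qq, add_sub_cancel, hT v, hT' v]
    ring
  refine ⟨fun v => ?_, ?_⟩
  · rw [h]; exact neg_ne_zero.2 (hd v)
  · funext v
    simp only [sec]
    rw [h, div_neg, div_self (hd v)]
    simp

/-- **Transport.** -/
theorem LT_transport (htr : ∀ a b c, R a b → R b c → R a c) (hC : Inv σ F B R) (hF : QuadOn B F)
    (hBJ : B ⊆ J) {u : ∀ v, α → L v} (hu : ∀ v, ∀ j ∉ B, u v j = 0)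
    (hq : ∀ v, qq (map (σ v) F) (T v) (u v) ≠ 0) (h : LT σ F R J (sec σ F u T)) :
    LT σ F R J T := by
  have hf1 : Tendsto (fun p : (∀ v, α → L v) × (∀ v, α → L v) => p.1) (𝓝 (T, T)) (𝓝 T) :=
    continuous_fst.tendsto (T, T)
  have hf2 : Tendsto (fun p : (∀ v, α → L v) × (∀ v, α → L v) => p.2) (𝓝 (T, T)) (𝓝 T) :=
    continuous_snd.tendsto (T, T)
  have hsec : Tendsto (fun p : (∀ v, α → L v) × (∀ v, α → L v) => (sec σ F u p.1, sec σ F u p.2))
      (𝓝 (T, T)) (𝓝 (sec σ F u T, sec σ F u T)) :=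
    ((sec_cont σ hq).tendsto.comp hf1).prodMk_nhds ((sec_cont σ hq).tendsto.comp hf2)
  filter_upwards [hsec.eventually h, hf1.eventually (ev_qq σ hq),
    hf2.eventually (ev_qq σ hq)] with p h1 h2 h4 hp1 hp2 ho
  refine htr _ _ _ (hC _ _ hp1 hu h2) (htr _ _ _ (h1 (sec_mem σ hF hu hp1 h2)
    (sec_mem σ hF hu hp2 h4) (fun v j hj => ?_)) (sec_inv' σ hC hF hu hp2 h4))
  have hjB : j ∉ B := fun h => hj (hBJ h)
  change sec σ F u p.2 v j = sec σ F u p.1 v j
  rw [sec_off σ hu v j hjB, sec_off σ hu v j hjB, ho v j hj]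

lemma pi_nhds {N : Set (∀ v, α → L v)} (hN : N ∈ 𝓝 T) :
    ∃ Nv : ∀ v, Set (α → L v), (∀ v, Nv v ∈ 𝓝 (T v)) ∧ ∀ y : ∀ v, α → L v,
      (∀ v, y v ∈ Nv v) → y ∈ N := by
  rw [nhds_pi, Filter.mem_pi'] at hN
  obtain ⟨I, t, ht, hsub⟩ := hN
  exact ⟨t, ht, fun y hy => hsub fun i _ => hy i⟩

lemma LT.sets (h : LT σ F R J T) : ∃ W ∈ 𝓝 T, ∀ z ∈ W, ∀ z' ∈ W, z ∈ locX σ F → z' ∈ locX σ F →
    (∀ v, ∀ j ∉ J, z' v j = z v j) → R z z' := by
  unfold LT at h
  rw [nhds_prod_eq] at h
  obtain ⟨W, hW, hsub⟩ := Filter.mem_prod_self_iff.1 h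
  refine ⟨W, hW, fun z hz z' hz' => ?_⟩
  have h3 := hsub (Set.mk_mem_prod hz hz')
  simpa only [Set.mem_ofPred_eq] using h3

/-- **Overlapping blocks.** -/
theorem LT_overlap (htr : ∀ a b c, R a b → R b c → R a c) [∀ v, CompleteSpace (L v)]
    [DecidableEq α] (hT : T ∈ locX σ F) (h1 : LT σ F R J T) (h2 : LT σ F R B T) (w : ι → α) (hw : ∀ v, w v ∈ J ∧ w v ∈ B)
    (hd : ∀ v, eval (T v) (pderiv (w v) (map (σ v) F)) ≠ 0) : LT σ F R (J ∪ B) T := by
  classical
  obtain ⟨W1, hW1, h1⟩ := LT.sets σ h1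
  obtain ⟨W2, hW2, h2⟩ := LT.sets σ h2
  obtain ⟨N, hN, hNW⟩ := pi_nhds (inter_mem hW1 hW2)
  have hsol : ∀ v, ∀ᶠ c in 𝓝 (T v), ∃ y ∈ N v, eval y (map (σ v) F) = 0 ∧
      ∀ j ∉ ({w v} : Finset α), y j = c j := by
    intro v
    have hst : HasStrictFDerivAt (fun (y : α → L v) (_ : Fin 1) => eval y (map (σ v) F))
        (ContinuousLinearMap.pi fun _ => dcl (map (σ v) F) (T v)) (T v) := by
      rw [hasStrictFDerivAt_pi']
      intro _
      exact strict_eval _ _
    have h := solve hst (by funext _; exact hT v) {w v} (fun s => by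
      refine ⟨Pi.single (w v) (s 0 / eval (T v) (pderiv (w v) (map (σ v) F))), ?_, ?_⟩
      · intro j hj
        rw [Finset.mem_singleton] at hj
        rw [Pi.single_apply, if_neg hj]
      · funext i
        rw [ContinuousLinearMap.pi_apply, dcl_apply, dd, Finset.sum_eq_single (w v)]
        · rw [Pi.single_eq_same, div_mul_cancel₀ _ (hd v), Subsingleton.elim i 0]
        · intro j _ hj
          rw [Pi.single_apply, if_neg hj, zero_mul]
        · intro h; exact absurd (Finset.mem_univ _) h) (hN v)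
    filter_upwards [h] with c hc
    obtain ⟨y, hy, hy0, hyc⟩ := hc
    exact ⟨y, hy, congrFun hy0 0, hyc⟩
  -- the intermediate point
  set Φ : (∀ v, α → L v) × (∀ v, α → L v) → ∀ v, α → L v :=
    fun p v j => if j ∈ J ∧ j ∉ B then p.2 v j else p.1 v j with hΦ
  have hΦc : Continuous Φ := by
    refine continuous_pi fun v => continuous_pi fun j => ?_
    by_cases h : j ∈ J ∧ j ∉ B
    · simp only [hΦ, if_pos h]
      exact (continuous_apply j).comp ((continuous_apply v).comp continuous_snd)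
    · simp only [hΦ, if_neg h]
      exact (continuous_apply j).comp ((continuous_apply v).comp continuous_fst)
  have hΦT : Φ (T, T) = T := by
    funext v j
    simp only [hΦ]
    split_ifs <;> rfl
  have hev : ∀ᶠ p in 𝓝 (T, T), ∀ v, ∃ y ∈ N v, eval y (map (σ v) F) = 0 ∧
      ∀ j ∉ ({w v} : Finset α), y j = Φ p v j := by
    refine eventually_all.2 fun v => ?_
    have ht : Tendsto (fun p => Φ p v) (𝓝 (T, T)) (𝓝 (T v)) := by
      have := ((continuous_apply v).comp hΦc).tendsto (T, T)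
      rw [Function.comp_def] at this
      simp only [hΦT] at this
      exact this
    exact ht.eventually (hsol v)
  have hW1' : ∀ᶠ p in 𝓝 (T, T), p.1 ∈ W1 := (continuous_fst.tendsto (T, T)).eventually hW1
  have hW2' : ∀ᶠ p in 𝓝 (T, T), p.2 ∈ W2 := (continuous_snd.tendsto (T, T)).eventually hW2
  filter_upwards [hev, hW1', hW2'] with p hp hpW1 hpW2 hp1 hp2 hoff
  choose y hyN hy0 hyc using hp
  have hyW := hNW y hyN
  have hyX : y ∈ locX σ F := hy0
  have hyC : R p.1 y := by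
    refine h1 p.1 hpW1 y hyW.1 hp1 hyX (fun v j hj => ?_)
    have hjw : j ∉ ({w v} : Finset α) := fun h => hj (by
      rw [Finset.mem_singleton] at h
      rw [h]; exact (hw v).1)
    rw [hyc v j hjw]
    simp only [hΦ]
    rw [if_neg fun h => hj h.1]
  refine htr _ _ _ hyC (h2 y hyW.2 p.2 hpW2 hyX hp2 (fun v j hj => ?_))
  have hjw : j ∉ ({w v} : Finset α) := fun h => hj (by
    rw [Finset.mem_singleton] at h
    rw [h]; exact (hw v).2)
  rw [hyc v j hjw]
  simp only [hΦ]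
  by_cases hjJ : j ∈ J
  · rw [if_pos ⟨hjJ, hj⟩]
  · rw [if_neg fun h => hjJ h.1]
    exact hoff v j fun h => (Finset.mem_union.1 h).elim hjJ hj

end Pool.Agent.Q83.MV
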