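import Pool.Agent.Q83.MV.Strict

/-!
# Closures of sets of rational points which are stable under second intersections with lines
(helper83)
-/

set_option autoImplicit false
set_option linter.unusedSectionVars false

namespace Pool.Agent.Q83.MV

open MvPolynomial Filter Topology Set

variable {K : Type*} [Field K] {ι : Type*} {L : ι → Type*}
  [∀ v, NontriviallyNormedField (L v)] (σ : ∀ v, K →+* L v)
  {α : Type*} [Fintype α]

/-- the images of a point -/
def emb (z : α → K) : ∀ v, α → L v := fun v j => σ v (z j)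

/-- the tuples of local points of the hypersurface -/
def locX (F : MvPolynomial α K) : Set (∀ v, α → L v) :=
  {z | ∀ v, eval (z v) (map (σ v) F) = 0}

/-- `Z` is a set of `K`-points of `F = 0` which contains with a point `z` all second intersections
`z'` of `F = 0` with the lines through `z` in the direction of the block `B` (`z'` is a simple point
of intersection). -/
def StableFor (F : MvPolynomial α K) (B : Finset α) (Z : Set (α → K)) : Prop :=
  ∀ z ∈ Z, ∀ z' : α → K, eval z' F = 0 → (∀ j ∉ B, z' j = z j) → dd F z (z' - z) ≠ 0 → z' ∈ Z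

lemma eval_emb (F : MvPolynomial α K) (z : α → K) (v : ι) :
    eval (emb σ z v) (map (σ v) F) = σ v (eval z F) := by
  rw [eval_map]
  have h := MvPolynomial.eval₂_comp_left (σ v) (RingHom.id K) z F
  rw [RingHom.comp_id] at h
  exact h.symm

lemma dd_emb (F : MvPolynomial α K) (z u : α → K) (v : ι) :
    dd (map (σ v) F) (emb σ z v) (emb σ u v) = σ v (dd F z u) := by
  simp only [dd, pderiv_map, eval_emb, map_sum, map_mul]
  rfl

lemma emb_add (z u : α → K) (v : ι) : emb σ (z + u) v = emb σ z v + emb σ u v := by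
  funext j
  simp [emb]

lemma emb_sub (z u : α → K) (v : ι) : emb σ (z - u) v = emb σ z v - emb σ u v := by
  funext j
  simp [emb]

lemma emb_smul (c : K) (u : α → K) (v : ι) : emb σ (c • u) v = σ v c • emb σ u v := by
  funext j
  simp [emb]

lemma qq_emb (F : MvPolynomial α K) (z u : α → K) (v : ι) :
    qq (map (σ v) F) (emb σ z v) (emb σ u v) = σ v (qq F z u) := by
  rw [qq, qq, ← emb_add, eval_emb, eval_emb, dd_emb, map_sub, map_sub]

lemma QuadOn.map {F : MvPolynomial α K} {B : Finset α} (h : QuadOn B F) (v : ι) :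
    QuadOn B (MvPolynomial.map (σ v) F) := fun m hm => h m (support_map_subset _ _ hm)

variable [Fintype ι]

omit [Fintype ι] in
lemma continuous_eval_comp {X : Type*} [TopologicalSpace X] {v : ι} (F : MvPolynomial α (L v))
    {f : X → α → L v} (hf : Continuous f) : Continuous fun x => eval (f x) F :=
  (MvPolynomial.continuous_eval F).comp hf

omit [Fintype ι] in
lemma continuous_dd {X : Type*} [TopologicalSpace X] {v : ι} (F : MvPolynomial α (L v))
    {f g : X → α → L v} (hf : Continuous f) (hg : Continuous g) :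
    Continuous fun x => dd F (f x) (g x) := by
  unfold dd
  refine continuous_finsetSum _ fun j _ => ?_
  exact ((continuous_apply j).comp hg).mul (continuous_eval_comp _ hf)

omit [Fintype ι] in
lemma continuous_qq {X : Type*} [TopologicalSpace X] {v : ι} (F : MvPolynomial α (L v))
    {f g : X → α → L v} (hf : Continuous f) (hg : Continuous g) :
    Continuous fun x => qq F (f x) (g x) := by
  unfold qq
  exact ((continuous_eval_comp _ (hf.add hg)).sub (continuous_eval_comp _ hf)).sub
    (continuous_dd F hf hg)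

omit [Fintype ι] in
/-- density of the directions -/
lemma dense_dir (hσ : DenseRange fun (a : K) (v : ι) => σ v a) (B : Finset α)
    (u : ∀ v, α → L v) (hu : ∀ v, ∀ j ∉ B, u v j = 0) :
    u ∈ closure {u' | ∃ a : α → K, (∀ j ∉ B, a j = 0) ∧ u' = emb σ a} := by
  classical
  have h1 : DenseRange fun (a : α → K) (j : α) (v : ι) => σ v (a j) :=
    DenseRange.piMap (f := fun (_ : α) (a : K) (v : ι) => σ v a) fun _ => hσ
  set Φ : (α → ∀ v, L v) → ∀ v, α → L v := fun w v j => if j ∈ B then w j v else 0 with hΦ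
  have hΦc : Continuous Φ := by
    refine continuous_pi fun v => continuous_pi fun j => ?_
    by_cases hj : j ∈ B
    · simp only [hΦ, hj, if_true]
      exact (continuous_apply v).comp (continuous_apply j)
    · simp only [hΦ, hj, if_false]
      exact continuous_const
  have h2 : Φ (fun j v => u v j) = u := by
    funext v j
    simp only [hΦ]
    split_ifs with hj
    · rfl
    · exact (hu v j hj).symm
  rw [← h2]
  refine closure_mono ?_ (image_closure_subset_closure_image hΦc ⟨_, h1 (fun j v => u v j), rfl⟩)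
  rintro _ ⟨_, ⟨a, rfl⟩, rfl⟩
  refine ⟨fun j => if j ∈ B then a j else 0, fun j hj => by simp [hj], ?_⟩
  funext v j
  simp only [hΦ, emb]
  split_ifs with hj
  · rfl
  · rw [map_zero]

/-- the second intersection with the line in the direction `u` -/
noncomputable def sec (F : MvPolynomial α K) (u z : ∀ v, α → L v) : ∀ v, α → L v :=
  fun v => z v - (dd (map (σ v) F) (z v) (u v) / qq (map (σ v) F) (z v) (u v)) • u v

/-- **The closure is stable under second intersections.** -/
theorem one_step (hσ : DenseRange fun (a : K) (v : ι) => σ v a) {F : MvPolynomial α K}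
    {B : Finset α} (hF : QuadOn B F) {Z : Set (α → K)} (hZX : ∀ z ∈ Z, eval z F = 0)
    (hZ : StableFor F B Z) {z u : ∀ v, α → L v} (hz : z ∈ closure (emb σ '' Z))
    (hu : ∀ v, ∀ j ∉ B, u v j = 0)
    (hq : ∀ v, qq (map (σ v) F) (z v) (u v) ≠ 0) : sec σ F u z ∈ closure (emb σ '' Z) := by
  have hdir := dense_dir σ hσ B u hu
  set D : (∀ v, α → L v) × (∀ v, α → L v) → ∀ v, L v :=
    fun p v => dd (map (σ v) F) (p.1 v) (p.2 v) with hD
  set Q : (∀ v, α → L v) × (∀ v, α → L v) → ∀ v, L v :=
    fun p v => qq (map (σ v) F) (p.1 v) (p.2 v) with hQ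
  have hc1 : ∀ v, Continuous fun p : (∀ v, α → L v) × (∀ v, α → L v) => p.1 v := fun v =>
    (continuous_apply v).comp continuous_fst
  have hc2 : ∀ v, Continuous fun p : (∀ v, α → L v) × (∀ v, α → L v) => p.2 v := fun v =>
    (continuous_apply v).comp continuous_snd
  have hDc : ∀ v, Continuous fun p => D p v := fun v => continuous_dd _ (hc1 v) (hc2 v)
  have hQc : ∀ v, Continuous fun p => Q p v := fun v => continuous_qq _ (hc1 v) (hc2 v)
  set Φ : (∀ v, α → L v) × (∀ v, α → L v) → ∀ v, α → L v :=
    fun p v => p.1 v - (D p v / Q p v) • p.2 v with hΦ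
  have hΦc : ContinuousAt Φ (z, u) := by
    refine continuousAt_pi.2 fun v => ?_
    have hs : ContinuousAt (fun p => D p v / Q p v) (z, u) :=
      (hDc v).continuousAt.div (hQc v).continuousAt (hq v)
    exact (hc1 v).continuousAt.sub (hs.smul (hc2 v).continuousAt)
  have hΦv : Φ (z, u) = sec σ F u z := rfl
  -- the open set
  set O : Set ((∀ v, α → L v) × (∀ v, α → L v)) := {p | ∀ v, Q p v ≠ 0} with hO
  have hOo : IsOpen O := by
    have e : O = ⋂ v, {p | Q p v ≠ 0} := by
      ext p; simp [hO]
    rw [e]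
    exact isOpen_iInter_of_finite fun v => isOpen_ne_fun (hQc v) continuous_const
  rcases isEmpty_or_nonempty ι with hι | hι
  · rwa [Subsingleton.elim (sec σ F u z) z]
  have hmem : (z, u) ∈ closure (O ∩ ((emb σ '' Z) ×ˢ
      {u' : ∀ v, α → L v | ∃ a : α → K, (∀ j ∉ B, a j = 0) ∧ u' = emb σ a})) := by
    refine hOo.inter_closure ⟨hq, ?_⟩
    rw [closure_prod_eq]
    exact ⟨hz, hdir⟩
  have h1 := (hΦc.continuousWithinAt (s := O ∩ ((emb σ '' Z) ×ˢ
      {u' : ∀ v, α → L v | ∃ a : α → K, (∀ j ∉ B, a j = 0) ∧ u' = emb σ a}))).mem_closure_image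
      hmem
  rw [hΦv] at h1
  refine closure_mono ?_ h1
  rintro _ ⟨⟨_, _⟩, ⟨hO', ⟨z0, hz0, rfl⟩, ⟨a, ha, rfl⟩⟩, rfl⟩
  simp only [hO, hQ, Set.mem_ofPred_eq, qq_emb] at hO'
  obtain ⟨v0⟩ := hι
  have hq0 : qq F z0 a ≠ 0 := fun h => (hO' v0) (by rw [h, map_zero])
  refine ⟨z0 - (dd F z0 a / qq F z0 a) • a, ?_, ?_⟩
  · by_cases hd0 : dd F z0 a = 0
    · rw [hd0, zero_div, zero_smul, sub_zero]
      exact hz0
    refine hZ z0 hz0 _ ?_ ?_ ?_
    · have e : z0 - (dd F z0 a / qq F z0 a) • a = z0 + (-(dd F z0 a / qq F z0 a)) • a := by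
        rw [neg_smul, sub_eq_add_neg]
      rw [e, line_eq hF z0 a ha, hZX z0 hz0]
      field_simp
      ring
    · intro j hj
      simp [ha j hj]
    · have e : z0 - (dd F z0 a / qq F z0 a) • a - z0 = (-(dd F z0 a / qq F z0 a)) • a := by
        rw [neg_smul]; abel
      rw [e, dd_smul]
      exact mul_ne_zero (neg_ne_zero.2 (div_ne_zero hd0 hq0)) hd0
  · funext v
    simp only [hΦ, hD, hQ, dd_emb, qq_emb]
    rw [emb_sub, emb_smul, map_div₀]

end Pool.Agent.Q83.MV
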