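import Pool.Agent.Q83.MV.Concl

/-!
# Hypersurfaces of degree at most two in each of several disjoint blocks of variables (helper83)
-/

set_option autoImplicit false
set_option linter.unusedSectionVars false

namespace Pool.Agent.Q83.MV

open MvPolynomial Filter Topology Set

section one

variable {E : Type*} [Field E] {α : Type*} [Fintype α]

/-- `T` and `T'` are points of `F = 0` which differ only in the block number `k`, and the line
through `T` and `T'` is not tangent to `F = 0` at `T` -/
def Nbr (F : MvPolynomial α E) (b : α → ℕ) (k : ℕ) (T T' : α → E) : Prop :=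
  eval T F = 0 ∧ eval T' F = 0 ∧ (∀ a, b a ≠ k → T' a = T a) ∧
    ∑ a, (T' a - T a) * eval T (pderiv a F) ≠ 0

/-- good points -/
def Good (F : MvPolynomial α E) (b : α → ℕ) : ℕ → (α → E) → Prop
  | 0, T => ∃ T', Nbr F b 0 T T'
  | k + 1, T => Good F b k T ∧ ∃ T', Nbr F b (k + 1) T T' ∧ Good F b k T' ∧
      ∃ a a', b a ≤ k ∧ b a' ≤ k ∧ eval T (pderiv a F) * eval T' (pderiv a' F) ≠
        eval T (pderiv a' F) * eval T' (pderiv a F)

lemma Good.zero (F : MvPolynomial α E) (b : α → ℕ) (k : ℕ) (T : α → E) (h : Good F b k T) :
    ∃ T', Nbr F b 0 T T' := by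
  induction k with
  | zero => exact h
  | succ k ih => exact ih h.1

lemma Good.eval_eq (F : MvPolynomial α E) (b : α → ℕ) (k : ℕ) (T : α → E) (h : Good F b k T) :
    eval T F = 0 := by
  obtain ⟨T', h⟩ := Good.zero F b k T h
  exact h.1

end one

variable {K : Type*} [Field K] {ι : Type*} [Fintype ι] {L : ι → Type*}
  [∀ v, NontriviallyNormedField (L v)] (σ : ∀ v, K →+* L v)
  {α : Type*} [Fintype α] [DecidableEq α]

variable {F : MvPolynomial α K} {R : (∀ v, α → L v) → (∀ v, α → L v) → Prop}

/-- the block number `k` -/
def blk (b : α → ℕ) (k : ℕ) : Finset α := Finset.univ.filter fun a => b a = k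

/-- the first blocks -/
def fst (b : α → ℕ) (k : ℕ) : Finset α := Finset.univ.filter fun a => b a ≤ k

theorem LT_good [∀ v, CompleteSpace (L v)] {b : α → ℕ} (k : ℕ)
    (hF : ∀ l ≤ k, QuadOn (blk b l) F) (htr : ∀ a b c, R a b → R b c → R a c)
    (hR : ∀ l ≤ k, Inv σ F (blk b l) R) :
    ∀ T : ∀ v, α → L v, (∀ v, Good (map (σ v) F) b k (T v)) → LT σ F R (fst b k) T := by
  induction k with
  | zero =>
    intro T hT
    choose T' h1 h2 h3 h4 using hT
    have hd : ∀ v, dd (map (σ v) F) (T v) (T' v - T v) ≠ 0 := h4
    have hq : ∀ v, qq (map (σ v) F) (T v) (T' v - T v) ≠ 0 := by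
      intro v
      have h : qq (map (σ v) F) (T v) (T' v - T v) =
          - dd (map (σ v) F) (T v) (T' v - T v) := by
        rw [qq, add_sub_cancel, h1 v, h2 v]
        ring
      rw [h]
      exact neg_ne_zero.2 (hd v)
    have e : fst b 0 = blk b 0 := by
      ext a
      simp [fst, blk]
    rw [e]
    refine LT_base σ htr (hR 0 le_rfl) (hF 0 le_rfl) h1 (u := fun v => T' v - T v)
      (fun v j hj => ?_) hd hq
    have hj' : b j ≠ 0 := fun h => hj (by simp [blk, h])
    simp [h3 v j hj']
  | succ k ih =>
    intro T hT
    have ih' := ih (fun l hl => hF l (by omega)) (fun l hl => hR l (by omega))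
    have hTk : ∀ v, Good (map (σ v) F) b k (T v) := fun v => (hT v).1
    have h5 : ∀ v, ∃ T', Nbr (map (σ v) F) b (k + 1) (T v) T' ∧ Good (map (σ v) F) b k T' ∧
      ∃ a a', b a ≤ k ∧ b a' ≤ k ∧ eval (T v) (pderiv a (map (σ v) F)) *
        eval T' (pderiv a' (map (σ v) F)) ≠
        eval (T v) (pderiv a' (map (σ v) F)) * eval T' (pderiv a (map (σ v) F)) :=
      fun v => (hT v).2
    choose T' hN hG a a' ha ha' hm using h5
    have e : fst b (k + 1) = fst b k ∪ blk b (k + 1) := by
      ext a
      simp only [fst, blk, Finset.mem_union, Finset.mem_filter, Finset.mem_univ, true_and]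
      omega
    rw [e]
    refine LT_step σ htr (hR (k + 1) le_rfl) (hF (k + 1) le_rfl) (T' := T') (fun v => (hN v).1)
      (fun v => (hN v).2.1) (fun v j hj => ?_) (fun v => (hN v).2.2.2) (fun v s t => ?_)
      (ih' T hTk) (ih' T' hG)
    · refine (hN v).2.2.1 j fun h => hj ?_
      simp [blk, h]
    · set F' := map (σ v) F with hF'
      set p1 := eval (T v) (pderiv (a v) F') with hp1
      set p2 := eval (T v) (pderiv (a' v) F') with hp2
      set q1 := eval (T' v) (pderiv (a v) F') with hq1
      set q2 := eval (T' v) (pderiv (a' v) F') with hq2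
      have hm' : p1 * q2 - p2 * q1 ≠ 0 := sub_ne_zero.2 (hm v)
      set x := (s * q2 - t * p2) / (p1 * q2 - p2 * q1) with hx
      set y := (t * p1 - s * q1) / (p1 * q2 - p2 * q1) with hy
      have hne : a v ≠ a' v := by
        intro h
        apply hm v
        rw [h]
      have hval : ∀ w : α → L v, dd F' w (x • Pi.single (a v) 1 + y • Pi.single (a' v) 1) =
          x * eval w (pderiv (a v) F') + y * eval w (pderiv (a' v) F') := by
        intro w
        rw [dd_add, dd_smul, dd_smul]
        congr 1
        · rw [dd, Finset.sum_eq_single (a v)]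
          · simp
          · intro j _ hj; simp [Pi.single_apply, hj]
          · intro h; exact absurd (Finset.mem_univ _) h
        · rw [dd, Finset.sum_eq_single (a' v)]
          · simp
          · intro j _ hj; simp [Pi.single_apply, hj]
          · intro h; exact absurd (Finset.mem_univ _) h
      have hB1 : a v ∉ blk b (k + 1) := by
        simp only [blk, Finset.mem_filter, Finset.mem_univ, true_and]
        have := ha v
        omega
      have hB2 : a' v ∉ blk b (k + 1) := by
        simp only [blk, Finset.mem_filter, Finset.mem_univ, true_and]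
        have := ha' v
        omega
      have hkill : kill (blk b (k + 1)) (x • Pi.single (a v) 1 + y • Pi.single (a' v) 1) =
          (x • Pi.single (a v) 1 + y • Pi.single (a' v) 1 : α → L v) := by
        funext j
        simp only [kill]
        split_ifs with hj
        · have j1 : j ≠ a v := by rintro rfl; exact hB1 hj
          have j2 : j ≠ a' v := by rintro rfl; exact hB2 hj
          simp [Pi.single_apply, j1, j2]
        · rfl
      refine ⟨x • Pi.single (a v) 1 + y • Pi.single (a' v) 1, fun j hj => ?_, ?_, ?_⟩
      · have j1 : j ≠ a v := by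
          rintro rfl
          exact hj (by simp only [fst, Finset.mem_filter, Finset.mem_univ, true_and]; exact ha v)
        have j2 : j ≠ a' v := by
          rintro rfl
          exact hj (by simp only [fst, Finset.mem_filter, Finset.mem_univ, true_and]; exact ha' v)
        simp [Pi.single_apply, j1, j2]
      · rw [hval]
        change x * p1 + y * p2 = s
        rw [hx, hy, div_mul_eq_mul_div, div_mul_eq_mul_div, ← add_div, div_eq_iff hm']
        ring
      · rw [hkill, hval]
        change x * q1 + y * q2 = t
        rw [hx, hy, div_mul_eq_mul_div, div_mul_eq_mul_div, ← add_div, div_eq_iff hm']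
        ring

end Pool.Agent.Q83.MV
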