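import Mathlib

/-!
# Second intersections of lines with hypersurfaces which are quadratic in a block of variables
(helper83)
-/

set_option autoImplicit false
set_option linter.unusedSectionVars false

namespace Pool.Agent.Q83.MV

open MvPolynomial

variable {R : Type*} [CommRing R] {α : Type*} [Fintype α]

/-- the derivative `D_u F(z)` -/
noncomputable def dd (F : MvPolynomial α R) (z u : α → R) : R := ∑ j, u j * eval z (pderiv j F)

/-- the quadratic part of `F(z + s u)` -/
noncomputable def qq (F : MvPolynomial α R) (z u : α → R) : R :=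
  eval (z + u) F - eval z F - dd F z u

/-- `F` has degree at most two in the block `B` of variables -/
def QuadOn (B : Finset α) (F : MvPolynomial α R) : Prop :=
  ∀ m ∈ F.support, ∑ j ∈ B, m j ≤ 2

lemma dd_smul (F : MvPolynomial α R) (z u : α → R) (s : R) : dd F z (s • u) = s * dd F z u := by
  simp only [dd, Pi.smul_apply, smul_eq_mul, Finset.mul_sum, mul_assoc]

lemma dd_neg (F : MvPolynomial α R) (z u : α → R) : dd F z (-u) = - dd F z u := by
  simp only [dd, Pi.neg_apply, neg_mul, Finset.sum_neg_distrib]

lemma dd_add (F : MvPolynomial α R) (z u u' : α → R) :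
    dd F z (u + u') = dd F z u + dd F z u' := by
  simp only [dd, Pi.add_apply, add_mul, Finset.sum_add_distrib]

/-- the restriction to a line -/
noncomputable def lin (F : MvPolynomial α R) (z u : α → R) : Polynomial R :=
  aeval (fun j => Polynomial.C (z j) + Polynomial.C (u j) * Polynomial.X) F

lemma lin_eval (F : MvPolynomial α R) (z u : α → R) (s : R) :
    (lin F z u).eval s = eval (z + s • u) F := by
  unfold lin
  rw [← Polynomial.coe_evalRingHom, aeval_def, hom_eval₂]
  rw [eval, coe_eval₂Hom]
  congr 1
  · ext a
    simp
  · funext j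
    simp only [Polynomial.coe_evalRingHom, Polynomial.eval_add,
      Polynomial.eval_mul, Polynomial.eval_C, Polynomial.eval_X, Pi.add_apply, Pi.smul_apply,
      smul_eq_mul]
    ring

lemma lin_coeff_zero (F : MvPolynomial α R) (z u : α → R) : (lin F z u).coeff 0 = eval z F := by
  have h := lin_eval F z u 0
  rwa [zero_smul, add_zero, ← Polynomial.coeff_zero_eq_eval_zero] at h

lemma lin_coeff_one (F : MvPolynomial α R) (z u : α → R) : (lin F z u).coeff 1 = dd F z u := by
  classical
  induction F using MvPolynomial.induction_on with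
  | C a => simp [lin, dd, Polynomial.algebraMap_eq]
  | add p q hp hq =>
    have e : lin (p + q) z u = lin p z u + lin q z u := by simp [lin]
    rw [e, Polynomial.coeff_add, hp, hq]
    simp only [dd, map_add, mul_add, Finset.sum_add_distrib]
  | mul_X p i hp =>
    have e : lin (p * X i) z u = lin p z u * (Polynomial.C (z i) + Polynomial.C (u i) *
      Polynomial.X) := by simp [lin]
    rw [e, Polynomial.mul_coeff_one, hp, lin_coeff_zero]
    have h0 : (Polynomial.C (z i) + Polynomial.C (u i) * Polynomial.X).coeff 0 = z i := by simp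
    have h1 : (Polynomial.C (z i) + Polynomial.C (u i) * Polynomial.X).coeff 1 = u i := by
      simp [Polynomial.coeff_C]
    rw [h0, h1]
    simp only [dd, Derivation.leibniz, map_add, pderiv_X, smul_eq_mul, map_mul, eval_X, mul_add,
      Finset.sum_add_distrib]
    have h2 : ∑ j, u j * (eval z p * eval z (Pi.single (M := fun _ => MvPolynomial α R) j 1 i)) =
        eval z p * u i := by
      rw [Finset.sum_eq_single i]
      · simp; ring
      · intro j _ hj
        rw [Pi.single_apply, if_neg (Ne.symm hj)]
        simp
      · intro h; exact absurd (Finset.mem_univ i) h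
    rw [h2, Finset.sum_mul]
    congr 1
    exact Finset.sum_congr rfl fun j _ => by ring

lemma lin_natDegree {B : Finset α} {F : MvPolynomial α R} (hF : QuadOn B F) (z u : α → R)
    (hu : ∀ j ∉ B, u j = 0) : (lin F z u).natDegree ≤ 2 := by
  classical
  unfold lin
  rw [aeval_def, eval₂_eq']
  refine Polynomial.natDegree_sum_le_of_forall_le _ _ fun m hm => ?_
  refine (Polynomial.natDegree_mul_le).trans ?_
  have h1 : ((algebraMap R (Polynomial R)) (coeff m F)).natDegree = 0 := by
    rw [Polynomial.algebraMap_eq, Polynomial.natDegree_C]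
  rw [h1, zero_add]
  refine (Polynomial.natDegree_prod_le _ _).trans ?_
  have h2 : ∀ j, ((Polynomial.C (z j) + Polynomial.C (u j) * Polynomial.X) ^ (m j)).natDegree ≤
      if j ∈ B then m j else 0 := by
    intro j
    split_ifs with hj
    · refine (Polynomial.natDegree_pow_le).trans ?_
      have : (Polynomial.C (z j) + Polynomial.C (u j) * Polynomial.X).natDegree ≤ 1 := by
        rw [add_comm]
        exact Polynomial.natDegree_linear_le
      calc m j * _ ≤ m j * 1 := Nat.mul_le_mul_left _ this
        _ = m j := mul_one _
    · rw [hu j hj, map_zero, zero_mul, add_zero, ← map_pow, Polynomial.natDegree_C]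
  refine (Finset.sum_le_sum fun j _ => h2 j).trans ?_
  rw [← Finset.sum_filter, Finset.filter_mem_eq_inter, Finset.univ_inter]
  exact hF m hm

/-- **the restriction to a line in the direction of the block** -/
lemma line_eq {B : Finset α} {F : MvPolynomial α R} (hF : QuadOn B F) (z u : α → R)
    (hu : ∀ j ∉ B, u j = 0) (s : R) :
    eval (z + s • u) F = eval z F + s * dd F z u + s ^ 2 * qq F z u := by
  have hd := lin_natDegree hF z u hu
  have h : ∀ t : R, (lin F z u).eval t = (lin F z u).coeff 0 + (lin F z u).coeff 1 * t +
      (lin F z u).coeff 2 * t ^ 2 := by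
    intro t
    rw [Polynomial.eval_eq_sum_range' (Nat.lt_succ_of_le hd)]
    simp [Finset.sum_range_succ]
  have h1 := h 1
  have hs := h s
  rw [lin_eval, lin_coeff_zero, lin_coeff_one] at h1 hs
  rw [one_smul] at h1
  rw [hs, qq, h1]
  ring

/-- symmetry -/
lemma dd_symm {B : Finset α} {F : MvPolynomial α R} (hF : QuadOn B F) {a b : α → R}
    (hu : ∀ j ∉ B, b j = a j) (ha : eval a F = 0) (hb : eval b F = 0) :
    dd F b (a - b) = dd F a (b - a) := by
  have hu1 : ∀ j ∉ B, (b - a) j = 0 := fun j hj => by rw [Pi.sub_apply, hu j hj, sub_self]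
  have hd := lin_natDegree hF a (b - a) hu1
  -- the restriction to the line is `c (s² - s)`
  have h : ∀ t : R, eval (a + t • (b - a)) F = t * dd F a (b - a) - t ^ 2 * dd F a (b - a) := by
    intro t
    rw [line_eq hF a (b - a) hu1 t, ha]
    have : qq F a (b - a) = - dd F a (b - a) := by
      rw [qq, add_sub_cancel, ha, hb]; ring
    rw [this]; ring
  have hu2 : ∀ j ∉ B, (a - b) j = 0 := fun j hj => by rw [Pi.sub_apply, hu j hj, sub_self]
  -- compare coefficients of the polynomials in one variable
  have e : lin F b (a - b) = (lin F a (b - a)).comp (1 - Polynomial.X) := by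
    unfold lin
    rw [aeval_def, aeval_def, ← Polynomial.coe_compRingHom_apply, hom_eval₂]
    congr 1
    · ext a : 1
      simp [Polynomial.algebraMap_eq]
    · funext j
      simp only [Pi.sub_apply, Polynomial.coe_compRingHom_apply, Polynomial.add_comp,
        Polynomial.mul_comp, Polynomial.C_comp, Polynomial.X_comp, map_sub, Polynomial.sub_comp]
      ring
  have h0 := lin_coeff_one F b (a - b)
  have hc : (lin F a (b - a)) = Polynomial.C (dd F a (b - a)) * Polynomial.X -
      Polynomial.C (dd F a (b - a)) * Polynomial.X ^ 2 := by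
    have c0 := lin_coeff_zero F a (b - a)
    have c1 := lin_coeff_one F a (b - a)
    have c2 : (lin F a (b - a)).coeff 2 = - dd F a (b - a) := by
      have h1 := lin_eval F a (b - a) 1
      rw [Polynomial.eval_eq_sum_range' (Nat.lt_succ_of_le hd)] at h1
      simp only [Finset.sum_range_succ, Finset.range_zero, Finset.sum_empty, c0, c1, ha] at h1
      rw [one_smul, add_sub_cancel, hb] at h1
      simp only [one_pow, mul_one, zero_add] at h1
      linear_combination h1
    ext k
    rcases k with _ | _ | _ | k
    · rw [c0, ha]; simp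
    · rw [c1]; simp [Polynomial.coeff_X_pow]
    · rw [c2]; simp
    · rw [Polynomial.coeff_eq_zero_of_natDegree_lt (by omega)]
      simp [Polynomial.coeff_X, Polynomial.coeff_X_pow]
  rw [← h0, e, hc]
  have e2 : (Polynomial.C (dd F a (b - a)) * Polynomial.X -
      Polynomial.C (dd F a (b - a)) * Polynomial.X ^ 2).comp (1 - Polynomial.X) =
      Polynomial.C (dd F a (b - a)) * Polynomial.X -
      Polynomial.C (dd F a (b - a)) * Polynomial.X ^ 2 := by
    simp only [Polynomial.sub_comp, Polynomial.mul_comp, Polynomial.C_comp, Polynomial.X_comp,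
      Polynomial.X_pow_comp]
    ring
  rw [e2]
  simp

end Pool.Agent.Q83.MV
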