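import Pool.Agent.Q83.MV.Local

/-!
# Adding a block (helper83)
-/

set_option autoImplicit false
set_option linter.unusedSectionVars false

namespace Pool.Agent.Q83.MV

open MvPolynomial Filter Topology Set

variable {K : Type*} [Field K] {ι : Type*} [Fintype ι] {L : ι → Type*}
  [∀ v, NontriviallyNormedField (L v)] (σ : ∀ v, K →+* L v)
  {α : Type*} [Fintype α]

variable {F : MvPolynomial α K} {B J : Finset α} {R : (∀ v, α → L v) → (∀ v, α → L v) → Prop}
  {T T' : ∀ v, α → L v}

/-- the conclusion -/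
theorem LT.final (h : LT σ F R Finset.univ T) :
    ∃ W ∈ 𝓝 T, ∀ z ∈ W, ∀ z' ∈ W, z ∈ locX σ F → z' ∈ locX σ F → R z z' := by
  obtain ⟨W, hW, h⟩ := LT.sets σ h
  exact ⟨W, hW, fun z hz z' hz' h1 h2 => h z hz z' hz' h1 h2 fun v j hj =>
    absurd (Finset.mem_univ j) hj⟩

lemma LT.mono (h : LT σ F R J T) (hJ : B ⊆ J) : LT σ F R B T := by
  unfold LT at h ⊢
  filter_upwards [h] with p hp h1 h2 h3
  exact hp h1 h2 fun v j hj => h3 v j fun hj' => hj (hJ hj')

section one

variable {𝕜 : Type*} [NontriviallyNormedField 𝕜]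

/-- the first point with the coordinates in the block `B` of the second -/
def repl [DecidableEq α] (B : Finset α) (y t : α → 𝕜) : α → 𝕜 := fun j => if j ∈ B then t j else y j

/-- the projection which kills the coordinates in the block `B` -/
def kill [DecidableEq α] (B : Finset α) (h : α → 𝕜) : α → 𝕜 := fun j => if j ∈ B then 0 else h j

lemma solve2 [CompleteSpace 𝕜] [DecidableEq α] {F : MvPolynomial α 𝕜} {T T' : α → 𝕜}
    {B J : Finset α} (hT : eval T F = 0) (hT' : eval T' F = 0) (hoff : ∀ j ∉ B, T' j = T j)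
    (hind : ∀ s t : 𝕜, ∃ h : α → 𝕜, (∀ j ∉ J, h j = 0) ∧ dd F T h = s ∧ dd F T' (kill B h) = t)
    {N : Set (α → 𝕜)} (hN : N ∈ 𝓝 T) :
    ∀ᶠ c in 𝓝 T, ∃ y ∈ N, eval y F = 0 ∧ eval (repl B y T') F = 0 ∧ ∀ j ∉ J, y j = c j := by
  set k : (α → 𝕜) →L[𝕜] (α → 𝕜) := ContinuousLinearMap.pi fun j =>
    if j ∈ B then 0 else ContinuousLinearMap.proj j with hk
  have hka : ∀ h, k h = kill B h := by
    intro h
    funext j
    simp only [hk, ContinuousLinearMap.pi_apply, kill]
    split_ifs <;> simp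
  have hrepl : ∀ y, repl B y T' = k y + (fun j => if j ∈ B then T' j else 0) := by
    intro y
    rw [hka]
    funext j
    simp only [repl, kill, Pi.add_apply]
    split_ifs <;> simp
  have hrT : repl B T T' = T' := by
    funext j
    simp only [repl]
    split_ifs with hj
    · rfl
    · exact (hoff j hj).symm
  have hrs : HasStrictFDerivAt (fun y => repl B y T') k T := by
    have e : (fun y => repl B y T') = fun y => k y + (fun j => if j ∈ B then T' j else 0) :=
      funext hrepl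
    rw [e]
    exact k.hasStrictFDerivAt.add_const _
  have hst2 : HasStrictFDerivAt (fun y => eval (repl B y T') F) ((dcl F T').comp k) T :=
    HasStrictFDerivAt.comp (g := fun y : α → 𝕜 => eval y F) T (by rw [hrT]; exact strict_eval F T')
      hrs
  have hst : HasStrictFDerivAt (fun y : α → 𝕜 => ![eval y F, eval (repl B y T') F])
      (ContinuousLinearMap.pi ![dcl F T, (dcl F T').comp k]) T := by
    rw [hasStrictFDerivAt_pi']
    intro i
    fin_cases i
    · exact strict_eval F T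
    · exact hst2
  have h := solve hst (by
    funext i
    fin_cases i
    · exact hT
    · change eval (repl B T T') F = 0
      rw [hrT]; exact hT') J (fun s => by
    obtain ⟨h, h1, h2, h3⟩ := hind (s 0) (s 1)
    refine ⟨h, h1, ?_⟩
    funext i
    fin_cases i
    · change dcl F T h = s 0
      rw [dcl_apply, h2]
    · change dcl F T' (k h) = s 1
      rw [dcl_apply, hka, h3]) hN
  filter_upwards [h] with c hc
  obtain ⟨y, hy, hy0, hyc⟩ := hc
  exact ⟨y, hy, congrFun hy0 0, congrFun hy0 1, hyc⟩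

lemma continuous_repl [DecidableEq α] (B : Finset α) (t : α → 𝕜) :
    Continuous fun y => repl B y t := by
  refine continuous_pi fun j => ?_
  by_cases hj : j ∈ B
  · simp only [repl, if_pos hj]
    exact continuous_const
  · simp only [repl, if_neg hj]
    exact continuous_apply j

end one

/-- **Adding a block.** -/
theorem LT_step (htr : ∀ a b c, R a b → R b c → R a c) [∀ v, CompleteSpace (L v)]
    [DecidableEq α] (hC : Inv σ F B R) (hF : QuadOn B F)
    (hT : T ∈ locX σ F) (hT' : T' ∈ locX σ F) (hoff : ∀ v, ∀ j ∉ B, T' v j = T v j)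
    (hd : ∀ v, dd (map (σ v) F) (T v) (T' v - T v) ≠ 0)
    (hind : ∀ v, ∀ s t : L v, ∃ h : α → L v, (∀ j ∉ J, h j = 0) ∧ dd (map (σ v) F) (T v) h = s ∧
      dd (map (σ v) F) (T' v) (kill B h) = t)
    (h1 : LT σ F R J T) (h2 : LT σ F R J T') : LT σ F R (J ∪ B) T := by
  obtain ⟨W, hW, h1⟩ := LT.sets σ h1
  obtain ⟨W', hW', h2⟩ := LT.sets σ h2
  -- the replaced point
  set r : (∀ v, α → L v) → ∀ v, α → L v := fun y v => repl B (y v) (T' v) with hr
  have hrc : Continuous r := continuous_pi fun v => (continuous_repl B (T' v)).comp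
    (continuous_apply v)
  have hrT : r T = T' := by
    funext v j
    simp only [hr, repl]
    split_ifs with hj
    · rfl
    · exact (hoff v j hj).symm
  have hroff : ∀ (y : ∀ v, α → L v) (v : ι), ∀ j ∉ B, r y v j = y v j := by
    intro y v j hj
    simp only [hr, repl, if_neg hj]
  have hN : {y : ∀ v, α → L v | y ∈ W ∧ r y ∈ W' ∧
      ∀ v, dd (map (σ v) F) (y v) (r y v - y v) ≠ 0} ∈ 𝓝 T := by
    have e1 : ∀ᶠ y in 𝓝 T, r y ∈ W' := by
      have := hrc.tendsto T
      rw [hrT] at this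
      exact this.eventually hW'
    have e2 : ∀ᶠ y in 𝓝 T, ∀ v, dd (map (σ v) F) (y v) (r y v - y v) ≠ 0 := by
      refine eventually_all.2 fun v => ?_
      have hc : Continuous fun y : ∀ v, α → L v => dd (map (σ v) F) (y v) (r y v - y v) :=
        continuous_dd _ (continuous_apply v)
          (((continuous_apply v).comp hrc).sub (continuous_apply v))
      refine hc.continuousAt.eventually_ne ?_
      rw [hrT]
      exact hd v
    filter_upwards [hW, e1, e2] with y a b c using ⟨a, b, c⟩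
  obtain ⟨N, hN, hNW⟩ := pi_nhds hN
  have hsol : ∀ᶠ c in 𝓝 T, ∃ y : ∀ v, α → L v, (∀ v, y v ∈ N v) ∧ y ∈ locX σ F ∧ r y ∈ locX σ F ∧
      ∀ v, ∀ j ∉ J, y v j = c v j := by
    have h : ∀ᶠ c in 𝓝 T, ∀ v, ∃ y ∈ N v, eval y (map (σ v) F) = 0 ∧
        eval (repl B y (T' v)) (map (σ v) F) = 0 ∧ ∀ j ∉ J, y j = c v j :=
      eventually_all.2 fun v => ((continuous_apply v).tendsto T).eventually
        (solve2 (hT v) (hT' v) (hoff v) (hind v) (hN v))
    filter_upwards [h] with c hc
    choose y hy h0 h0' hyc using hc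
    exact ⟨y, hy, h0, h0', hyc⟩
  have hf1 : Tendsto (fun p : (∀ v, α → L v) × (∀ v, α → L v) => p.1) (𝓝 (T, T)) (𝓝 T) :=
    continuous_fst.tendsto (T, T)
  have hf2 : Tendsto (fun p : (∀ v, α → L v) × (∀ v, α → L v) => p.2) (𝓝 (T, T)) (𝓝 T) :=
    continuous_snd.tendsto (T, T)
  unfold LT
  filter_upwards [hf1.eventually hsol, hf2.eventually hsol, hf1.eventually hW,
    hf2.eventually hW] with p hs1 hs2 hpW1 hpW2 hp1 hp2 hpoff
  obtain ⟨y1, hy1N, hy1X, hy1X', hy1off⟩ := hs1
  obtain ⟨y2, hy2N, hy2X, hy2X', hy2off⟩ := hs2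
  obtain ⟨hy1W, hy1W', hy1d⟩ := hNW y1 hy1N
  obtain ⟨hy2W, hy2W', hy2d⟩ := hNW y2 hy2N
  have c1 : R p.1 y1 := h1 p.1 hpW1 y1 hy1W hp1 hy1X (fun v j hj => hy1off v j hj)
  have c2 : R y1 (r y1) := hC.two σ hy1X hy1X' (hroff y1) hy1d
  have c3 : R (r y1) (r y2) := by
    refine h2 (r y1) hy1W' (r y2) hy2W' hy1X' hy2X' (fun v j hj => ?_)
    by_cases hjB : j ∈ B
    · simp only [hr, repl, if_pos hjB]
    · rw [hroff y2 v j hjB, hroff y1 v j hjB, hy1off v j hj, hy2off v j hj]
      exact hpoff v j fun h => (Finset.mem_union.1 h).elim hj hjB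
  have c4 : R (r y2) y2 := by
    refine hC.two σ hy2X' hy2X (fun v j hj => (hroff y2 v j hj).symm) fun v => ?_
    rw [dd_symm (hF.map σ v) (fun j hj => hroff y2 v j hj) (hy2X v) (hy2X' v)]
    exact hy2d v
  exact htr _ _ _ c1 (htr _ _ _ c2 (htr _ _ _ c3 (htr _ _ _ c4
    (h1 y2 hy2W p.2 hpW2 hy2X hp2 (fun v j hj => (hy2off v j hj).symm)))))

end Pool.Agent.Q83.MV
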