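import Pool.Agent.Q83.MV.Poly

/-!
# Solving equations in some of the variables, over complete valued fields (helper83)
-/

set_option autoImplicit false

namespace Pool.Agent.Q83.MV

open MvPolynomial Filter Topology

variable {𝕜 : Type*} [NontriviallyNormedField 𝕜] {α : Type*} [Fintype α]

/-- the derivative of a polynomial function -/
noncomputable def dcl (F : MvPolynomial α 𝕜) (x : α → 𝕜) : (α → 𝕜) →L[𝕜] 𝕜 :=
  ∑ j, (eval x (pderiv j F)) • (ContinuousLinearMap.proj j : (α → 𝕜) →L[𝕜] 𝕜)

lemma dcl_apply (F : MvPolynomial α 𝕜) (x u : α → 𝕜) : dcl F x u = dd F x u := by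
  simp only [dcl, dd, sum_apply, smul_apply, ContinuousLinearMap.proj_apply, smul_eq_mul]
  exact Finset.sum_congr rfl fun j _ => mul_comm _ _

/-- polynomial functions are strictly differentiable -/
theorem strict_eval (G : MvPolynomial α 𝕜) (x : α → 𝕜) :
    HasStrictFDerivAt (fun y : α → 𝕜 => eval y G) (dcl G x) x := by
  classical
  induction G using MvPolynomial.induction_on with
  | C a =>
    have e : dcl (C a) x = 0 := by
      apply ContinuousLinearMap.ext
      intro v
      rw [dcl_apply]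
      simp [dd]
    rw [e]
    simp only [eval_C]
    exact hasStrictFDerivAt_const _ _
  | add p q hp hq =>
    have h := hp.add hq
    have e1 : (fun y : α → 𝕜 => eval y (p + q)) = fun y => eval y p + eval y q := by
      funext y; rw [map_add]
    rw [e1]
    refine h.congr_fderiv ?_
    apply ContinuousLinearMap.ext
    intro v
    rw [add_apply, dcl_apply, dcl_apply, dcl_apply]
    simp only [dd, map_add, mul_add, Finset.sum_add_distrib]
  | mul_X p i hp =>
    have hX : HasStrictFDerivAt (fun y : α → 𝕜 => y i)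
        (ContinuousLinearMap.proj i : (α → 𝕜) →L[𝕜] 𝕜) x :=
      (ContinuousLinearMap.proj i : (α → 𝕜) →L[𝕜] 𝕜).hasStrictFDerivAt
    have h := hp.mul hX
    have e1 : (fun y : α → 𝕜 => eval y (p * X i)) = fun y => eval y p * y i := by
      funext y; rw [map_mul, eval_X]
    rw [e1]
    refine h.congr_fderiv ?_
    apply ContinuousLinearMap.ext
    intro v
    rw [add_apply, smul_apply, smul_apply, dcl_apply, dcl_apply, ContinuousLinearMap.proj_apply,
      smul_eq_mul, smul_eq_mul]
    simp only [dd, Derivation.leibniz, map_add, pderiv_X, smul_eq_mul, map_mul, eval_X, mul_add,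
      Finset.sum_add_distrib]
    have h2 : ∑ j, v j * (eval x p * eval x (Pi.single (M := fun _ => MvPolynomial α 𝕜) j 1 i)) =
        eval x p * v i := by
      rw [Finset.sum_eq_single i]
      · simp; ring
      · intro j _ hj
        rw [Pi.single_apply, if_neg (Ne.symm hj)]
        simp
      · intro h; exact absurd (Finset.mem_univ i) h
    rw [h2, Finset.mul_sum]
    congr 1
    exact Finset.sum_congr rfl fun j _ => by ring

/-- **Solving equations in the variables of `J`.** -/
theorem solve [CompleteSpace 𝕜] {m : ℕ} {G : (α → 𝕜) → (Fin m → 𝕜)}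
    {G' : (α → 𝕜) →L[𝕜] (Fin m → 𝕜)} {T : α → 𝕜} (hG : HasStrictFDerivAt G G' T)
    (hT : G T = 0) (J : Finset α)
    (hsurj : ∀ s : Fin m → 𝕜, ∃ h : α → 𝕜, (∀ j ∉ J, h j = 0) ∧ G' h = s)
    {N : Set (α → 𝕜)} (hN : N ∈ 𝓝 T) :
    ∀ᶠ c in 𝓝 T, ∃ y ∈ N, G y = 0 ∧ ∀ j ∉ J, y j = c j := by
  classical
  set R : (α → 𝕜) →L[𝕜] ({j // j ∉ J} → 𝕜) :=
    ContinuousLinearMap.pi fun j => ContinuousLinearMap.proj j.1 with hR
  have hst : HasStrictFDerivAt (fun y => (G y, R y)) (G'.prod R) T :=
    hG.prodMk R.hasStrictFDerivAt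
  have hs : (G'.prod R).range = ⊤ := by
    rw [LinearMap.range_eq_top]
    rintro ⟨s, c⟩
    -- first the coordinates outside `J`
    set c' : α → 𝕜 := fun j => if h : j ∉ J then c ⟨j, h⟩ else 0 with hc'
    obtain ⟨h, h1, h2⟩ := hsurj (s - G' c')
    refine ⟨c' + h, ?_⟩
    have e1 : G' (c' + h) = s := by rw [map_add, h2]; abel
    have e2 : R (c' + h) = c := by
      funext j
      simp only [hR, ContinuousLinearMap.pi_apply, ContinuousLinearMap.proj_apply, Pi.add_apply,
        h1 j.1 j.2, add_zero, hc']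
      rw [dif_pos j.2]
    exact Prod.ext e1 e2
  have hmap := hst.map_nhds_eq_of_surj hs
  have him : (fun y => (G y, R y)) '' N ∈ 𝓝 ((G T, R T) : (Fin m → 𝕜) × _) := by
    rw [← hmap]
    exact image_mem_map hN
  have hcont : Tendsto (fun c : α → 𝕜 => ((0 : Fin m → 𝕜), R c)) (𝓝 T)
      (𝓝 ((G T, R T) : (Fin m → 𝕜) × _)) := by
    have h1 : Continuous fun c : α → 𝕜 => ((0 : Fin m → 𝕜), R c) :=
      continuous_const.prodMk R.continuous
    have h2 := h1.tendsto T
    rw [hT]
    exact h2
  filter_upwards [hcont.eventually him] with c hc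
  obtain ⟨y, hy, hyc⟩ := hc
  refine ⟨y, hy, (Prod.ext_iff.1 hyc).1, fun j hj => ?_⟩
  exact congrFun (Prod.ext_iff.1 hyc).2 ⟨j, hj⟩

end Pool.Agent.Q83.MV
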