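import Pool.Agent.Q83.MV.Multi
import Pool.Agent.W572.G.Elim

/-!
# Zariski density from local density (helper83)
-/

set_option autoImplicit false
set_option linter.unusedSectionVars false

namespace Pool.Agent.Q83.MV

open MvPolynomial Filter Topology Set

/-- a polynomial which vanishes near a smooth point of an irreducible hypersurface over a complete
field is divisible by its equation -/
theorem dvd_of_near {K : Type*} [Field K] {L : Type*} [NontriviallyNormedField L] [CompleteSpace L]
    (σ : K →+* L) {α : Type*} [Fintype α] {F : MvPolynomial α K}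
    (hF : Irreducible F) {T : α → L} {a : α} (hT : eval T (map σ F) = 0)
    (ha : eval T (pderiv a (map σ F)) ≠ 0) {g : MvPolynomial α K}
    (hg : ∀ᶠ z in 𝓝 T, eval z (map σ F) = 0 → eval z (map σ g) = 0) : F ∣ g := by
  classical
  by_contra hFg
  have hFa : pderiv a F ≠ 0 := by
    intro h
    apply ha
    rw [pderiv_map, h, map_zero, map_zero]
  obtain ⟨G, hG, A, B, hAB⟩ := Pool.Agent.W572.G.exists_elim F g a hF hFa hFg
  have hst : HasStrictFDerivAt (fun (y : α → L) (_ : Fin 1) => eval y (map σ F))
      (ContinuousLinearMap.pi fun _ => dcl (map σ F) T) T := by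
    rw [hasStrictFDerivAt_pi']
    intro _
    exact strict_eval _ _
  have h := solve hst (by funext _; exact hT) {a} (fun s => by
    refine ⟨Pi.single a (s 0 / eval T (pderiv a (map σ F))), ?_, ?_⟩
    · intro j hj
      rw [Finset.mem_singleton] at hj
      rw [Pi.single_apply, if_neg hj]
    · funext i
      rw [ContinuousLinearMap.pi_apply, dcl_apply, dd, Finset.sum_eq_single a]
      · rw [Pi.single_eq_same, div_mul_cancel₀ _ ha, Subsingleton.elim i 0]
      · intro j _ hj
        rw [Pi.single_apply, if_neg hj, zero_mul]
      · intro h; exact absurd (Finset.mem_univ _) h) hg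
  -- `G` vanishes near `T`
  have hGz : ∀ᶠ c in 𝓝 T, eval (fun j : {l // l ≠ a} => c j) (map σ G) = 0 := by
    filter_upwards [h] with c hc
    obtain ⟨y, hy, hy0, hyc⟩ := hc
    have hyF : eval y (map σ F) = 0 := congrFun hy0 0
    have hyg : eval y (map σ g) = 0 := hy hyF
    have e1 : eval y (map σ (rename Subtype.val G)) = 0 := by
      rw [hAB, map_add, map_mul, map_mul, map_add, map_mul, map_mul, hyF, hyg, mul_zero, mul_zero,
        add_zero]
    rw [map_rename, eval_rename] at e1
    rw [← e1]
    congr 1
    congr 1
    funext j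
    exact (hyc j (by simpa using j.2)).symm
  apply hG
  apply map_injective σ σ.injective
  rw [map_zero]
  obtain ⟨ε, hε, hball⟩ := Metric.eventually_nhds_iff_ball.1 hGz
  refine funext_set (s := fun j : {l // l ≠ a} => Metric.ball (T j) ε)
    (fun j => infinite_of_mem_nhds (T j) (Metric.ball_mem_nhds _ hε)) fun x hx => ?_
  rw [map_zero]
  set c : α → L := fun j => if h : j ≠ a then x ⟨j, h⟩ else T a with hc
  have hcT : c ∈ Metric.ball T ε := by
    rw [Metric.mem_ball, dist_pi_lt_iff hε]
    intro j
    simp only [hc]
    split_ifs with hj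
    · exact hx ⟨j, hj⟩ (Set.mem_univ _)
    · push Not at hj
      rw [hj, dist_self]
      exact hε
  have h1 := hball c hcT
  have h2 : (fun j : {l // l ≠ a} => c j) = x := by
    funext j
    simp only [hc]
    rw [dif_pos j.2]
  rwa [h2] at h1

end Pool.Agent.Q83.MV
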